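import Pool.Agent.TH207.NC.Chain

/-! Three flattenings of a triangle with a cut corner whose cut vertex has an arbitrary real
height. -/

set_option autoImplicit false

namespace Pool.Agent.N168.BR

open Finset Pool.Agent.TH176.Nag Pool.Agent.TH207.NC

/-- three flattenings of a triangle with a cut corner: the upper part of the left side passes
through a point at the height `p` which is the apex of the last but one quadrilateral -/
theorem Emp_bilinear {ι : Type} {w : ι → ℕ} {α β μ s B t T κ m : ℝ} (a b p x v : ℤ)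
    (ha : 1 ≤ a) (hab : IsCoprime a b) (hp : 1 ≤ p) (hxp : IsCoprime x p)
    (hs : 0 < s) (ht : 0 ≤ t) (hm : m = a * (a * μ + b)) (hm1 : p * m = a * t * κ + x)
    (hm2 : m * (T - a * p) = a * p * v) (h1 : (a : ℝ) ^ 2 * s ≤ m) (h2 : (a : ℝ) ^ 2 * t ≤ m)
    (h3 : p * m ≤ a * s * T) (hκ : 0 ≤ κ) (hκ' : κ ≤ a * p)
    (hw : Emp w (Reg (p * a * α + κ * B) (p * a * α + T * (β - α)) (t * κ * (a * p - κ))
      (s * T ^ 2 - t * κ * (a * p)))) :
    Emp w {q : ℤ × ℤ | q ∈ Reg α β μ (s - μ) ∧ α + B + (μ - t) * (q.2 : ℝ) ≤ (q.1 : ℝ)} := by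
  have ha' : (1 : ℝ) ≤ a := by exact_mod_cast ha
  have hp' : (1 : ℝ) ≤ p := by exact_mod_cast hp
  have ha0 : (0 : ℝ) < a := by linarith
  have hp0 : (0 : ℝ) < p := by linarith
  have hap : (0 : ℝ) < a * p := mul_pos ha0 hp0
  have hm0 : 0 < m := lt_of_lt_of_le (by positivity) h1
  -- `a p ≤ T`
  have hT : (a : ℝ) * p ≤ T := by
    have e1 : (p : ℝ) * (a ^ 2 * s) ≤ a * s * T := (mul_le_mul_of_nonneg_left h1 hp0.le).trans h3
    have e2 : (a : ℝ) * s * (a * p) ≤ a * s * T := by linarith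
    exact le_of_mul_le_mul_left e2 (mul_pos ha0 hs)
  have hT0 : 0 < T := lt_of_lt_of_le hap hT
  have hv : (0 : ℝ) ≤ v := by
    have e1 : 0 ≤ (a : ℝ) * p * v := by
      rw [← hm2]
      exact mul_nonneg hm0.le (by linarith)
    exact nonneg_of_mul_nonneg_right e1 hap
  have hmv : (a : ℝ) * p * (m + v) = m * T := by linear_combination -hm2
  have hmv0 : 0 ≤ m + v := by linarith
  have hkv : 0 ≤ m + v - a ^ 2 * t := by linarith
  -- the last region
  obtain ⟨N, hN⟩ : ∃ N : ℤ, N = x + p * v := ⟨_, rfl⟩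
  have hN' : (N : ℝ) = x + p * v := by rw [hN]; push_cast; ring
  have hNm : (p : ℝ) * (m + v) = N + a * t * κ := by rw [hN']; linear_combination hm1
  have hcop : IsCoprime p (-N) := by
    have e1 : IsCoprime p (x + p * v) := by
      have := hxp.symm.add_mul_left_right v
      simpa using this
    rw [hN]
    exact e1.neg_right
  obtain ⟨c1, c2, hc12⟩ := hcop
  have hH : 0 ≤ s * T ^ 2 - t * κ * (a * p) := by
    have e1 : (a : ℝ) * (a * p * t) ≤ a * (s * T) := by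
      have := mul_le_mul_of_nonneg_left h2 hp0.le
      linarith
    have e2 : (a : ℝ) * p * t ≤ s * T := le_of_mul_le_mul_left e1 ha0
    have e3 : (a : ℝ) * p * t * κ ≤ s * T * κ := mul_le_mul_of_nonneg_right e2 hκ
    have e4 : s * T * κ ≤ s * T * T :=
      mul_le_mul_of_nonneg_left (hκ'.trans hT) (mul_pos hs hT0).le
    linarith
  have g3 : Emp w {q : ℤ × ℤ | (0 : ℤ) ≤ q.2 ∧ a * α + (m + v) * (q.2 : ℝ) ≤ (q.1 : ℝ) ∧
      a * (α + B) + (m + v - a ^ 2 * t) * (q.2 : ℝ) ≤ (q.1 : ℝ) ∧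
      a * p ^ 2 * (q.1 : ℝ) + (a * s * T - p * m) * T * (q.2 : ℝ) ≤
        a ^ 2 * p ^ 2 * α + a * p * T * (β - α)} := by
    refine Emp_flat p (-N) c1 c2 (by linarith) ?_ hw
    rintro ⟨r1, r2⟩ T2 n ⟨k1, -, k3, -⟩ ⟨-, k6, -, k8⟩ hn
    simp only at k1 k3 k6 k8
    push_cast at k6 k8
    have hr2 : (0 : ℝ) ≤ r2 := by exact_mod_cast k1
    have hn' : (n : ℝ) ≤ T2 := by exact_mod_cast hn
    refine ⟨by simp, ?_, ?_⟩
    · simp only
      push_cast
      have q1 : 0 ≤ κ * ((r1 : ℝ) - (a * (α + B) + (m + v - a ^ 2 * t) * r2)) :=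
        mul_nonneg hκ (by linarith)
      have q2 : 0 ≤ (a * p - κ) * (((r1 : ℝ) - -N * T2) - (a * α + (m + v) * (r2 + p * T2))) :=
        mul_nonneg (by linarith) (by linarith)
      have e : a * ((p : ℝ) * r1 + -N * r2 - (p * a * α + κ * B + t * κ * (a * p - κ) * T2)) =
          κ * ((r1 : ℝ) - (a * (α + B) + (m + v - a ^ 2 * t) * r2)) +
          (a * p - κ) * (((r1 : ℝ) - -N * T2) - (a * α + (m + v) * (r2 + p * T2))) := by
        linear_combination (a * r2 + (a * p - κ) * T2) * hNm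
      have q3 : 0 ≤ a * ((p : ℝ) * r1 + -N * r2 -
          (p * a * α + κ * B + t * κ * (a * p - κ) * T2)) := by rw [e]; linarith
      have q4 := nonneg_of_mul_nonneg_right q3 ha0
      have q5 : t * κ * (a * p - κ) * n ≤ t * κ * (a * p - κ) * T2 :=
        mul_le_mul_of_nonneg_left hn' (mul_nonneg (mul_nonneg ht hκ) (by linarith))
      linarith
    · simp only
      push_cast
      have e : a * p * (p * a * α + T * (β - α) - (s * T ^ 2 - t * κ * (a * p)) * T2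
            - ((p : ℝ) * r1 + -N * r2)) =
          (a ^ 2 * p ^ 2 * α + a * p * T * (β - α) -
            (a * p ^ 2 * ((r1 : ℝ) - -N * T2) + (a * s * T - p * m) * T * (r2 + p * T2))) +
          a * (s * T ^ 2 - t * κ * (a * p)) * r2 := by
        linear_combination (-(a * p * (r2 + p * T2))) * hNm + (p * (r2 + p * T2)) * hmv
      have q1 : 0 ≤ a * (s * T ^ 2 - t * κ * (a * p)) * r2 :=
        mul_nonneg (mul_nonneg ha0.le hH) hr2
      have q3 : 0 ≤ a * p * (p * a * α + T * (β - α) - (s * T ^ 2 - t * κ * (a * p)) * T2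
            - ((p : ℝ) * r1 + -N * r2)) := by rw [e]; linarith
      have q4 := nonneg_of_mul_nonneg_right q3 hap
      have q5 : (s * T ^ 2 - t * κ * (a * p)) * n ≤ (s * T ^ 2 - t * κ * (a * p)) * T2 :=
        mul_le_mul_of_nonneg_left hn' hH
      linarith
  have g2 : Emp w {q : ℤ × ℤ | (0 : ℤ) ≤ q.2 ∧ a * α + m * (q.2 : ℝ) ≤ (q.1 : ℝ) ∧
      a * (α + B) + (m - a ^ 2 * t) * (q.2 : ℝ) ≤ (q.1 : ℝ) ∧
      a ^ 2 * s * (q.1 : ℝ) + m * (m - a ^ 2 * s) * (q.2 : ℝ) ≤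
        a * (m * β - (m - a ^ 2 * s) * α)} := by
    refine Emp_flat 1 v 1 0 (by ring) ?_ g3
    rintro ⟨q1, q2⟩ T1 n ⟨k1, -, -, k4⟩ ⟨-, k6, k7, -⟩ hn
    simp only at k1 k4 k6 k7
    push_cast at k6 k7
    have hq2 : (0 : ℝ) ≤ q2 := by exact_mod_cast k1
    have hn' : (n : ℝ) ≤ T1 := by exact_mod_cast hn
    refine ⟨by simp, ?_, ?_, ?_⟩
    · simp only
      push_cast
      have r1 : 0 ≤ (m + v) * (q2 : ℝ) := mul_nonneg hmv0 hq2
      have r2 : 0 ≤ (m + v) * ((T1 : ℝ) - n) := mul_nonneg hmv0 (by linarith)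
      linarith
    · simp only
      push_cast
      have r1 : 0 ≤ (m + v - a ^ 2 * t) * (q2 : ℝ) := mul_nonneg hkv hq2
      have r2 : 0 ≤ (m + v - a ^ 2 * t) * ((T1 : ℝ) - n) := mul_nonneg hkv (by linarith)
      linarith
    · simp only
      push_cast
      obtain ⟨lam, hlam⟩ : ∃ lam : ℝ, lam = a ^ 2 * s * v - m * (m - a ^ 2 * s) := ⟨_, rfl⟩
      have hlam1 : p * lam = m * (a * s * T - p * m) := by
        have e1 : a * (p * lam) = a * (m * (a * s * T - p * m)) := by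
          rw [hlam]
          linear_combination (-(a ^ 2 * s)) * hm2
        exact mul_left_cancel₀ ha0.ne' e1
      have hlam0 : 0 ≤ lam := by
        have e1 : 0 ≤ p * lam := by
          rw [hlam1]
          exact mul_nonneg hm0.le (by linarith)
        exact nonneg_of_mul_nonneg_right e1 hp0
      have r1 : 0 ≤ (m + v) * (a * (m * β - (m - a ^ 2 * s) * α) -
          (a ^ 2 * s * (q1 : ℝ) + m * (m - a ^ 2 * s) * q2)) := mul_nonneg hmv0 (by linarith)
      have r2 : 0 ≤ lam * (((q1 : ℝ) - v * T1) - (a * α + m * (q2 + 1 * T1))) :=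
        mul_nonneg hlam0 (by linarith)
      have r3 : 0 ≤ lam * (m + v) * ((T1 : ℝ) - n) :=
        mul_nonneg (mul_nonneg hlam0 hmv0) (by linarith)
      have e : (m ^ 2) * (a ^ 2 * p ^ 2 * α + a * p * T * (β - α) -
          (a * p ^ 2 * (1 * (q1 : ℝ) + v * q2) + (a * s * T - p * m) * T * n)) =
          a * p ^ 2 * ((m + v) * (a * (m * β - (m - a ^ 2 * s) * α) -
            (a ^ 2 * s * (q1 : ℝ) + m * (m - a ^ 2 * s) * q2)) +
          lam * (((q1 : ℝ) - v * T1) - (a * α + m * (q2 + 1 * T1))) +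
          lam * (m + v) * ((T1 : ℝ) - n)) := by
        linear_combination (-(a * p * m * β) + (n : ℝ) * p * lam) * hmv - a * p * m * α * hm2 +
          (n : ℝ) * m * T * hlam1 - a * p ^ 2 * ((q1 : ℝ) - a * α - m * q2) * hlam
      have r4 : 0 ≤ (m ^ 2) * (a ^ 2 * p ^ 2 * α + a * p * T * (β - α) -
          (a * p ^ 2 * (1 * (q1 : ℝ) + v * q2) + (a * s * T - p * m) * T * n)) := by
        rw [e]
        exact mul_nonneg (by positivity) (by linarith)
      have r5 := nonneg_of_mul_nonneg_right r4 (by positivity)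
      linarith
  obtain ⟨c3, c4, hc34⟩ := hab
  have haμ : 0 ≤ a * μ + b := by
    have e1 : 0 ≤ a * (a * μ + b) := by rw [← hm]; exact hm0.le
    exact nonneg_of_mul_nonneg_right e1 ha0
  have haμt : 0 ≤ a * (μ - t) + b := by
    have e1 : 0 ≤ a * (a * (μ - t) + b) := by
      have e2 : a * (a * (μ - t) + b) = m - a ^ 2 * t := by rw [hm]; ring
      rw [e2]; linarith
    exact nonneg_of_mul_nonneg_right e1 ha0
  refine Emp_flat a b c3 c4 (by linarith) ?_ g2
  rintro ⟨p1, p2⟩ T0 n ⟨⟨k1, -, k3⟩, -⟩ ⟨⟨-, k5, -⟩, k7⟩ hn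
  simp only at k1 k3 k5 k7
  push_cast at k5 k7
  have hp2 : (0 : ℝ) ≤ p2 := by exact_mod_cast k1
  have hn' : (n : ℝ) ≤ T0 := by exact_mod_cast hn
  have u1 : 0 ≤ a * (((p1 : ℝ) - b * T0) - (α + μ * (p2 + a * T0))) :=
    mul_nonneg ha0.le (by linarith)
  have u2 : 0 ≤ a * (((p1 : ℝ) - b * T0) - (α + B + (μ - t) * (p2 + a * T0))) :=
    mul_nonneg ha0.le (by linarith)
  refine ⟨by simp, ?_, ?_, ?_⟩
  · simp only
    push_cast
    have e : (a : ℝ) * p1 + b * p2 - (a * α + m * n) =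
        a * (((p1 : ℝ) - b * T0) - (α + μ * (p2 + a * T0))) + (a * μ + b) * p2 +
          m * (T0 - n) := by rw [hm]; ring
    have r1 : 0 ≤ (a * μ + b) * (p2 : ℝ) := mul_nonneg haμ hp2
    have r2 : 0 ≤ m * ((T0 : ℝ) - n) := mul_nonneg hm0.le (by linarith)
    linarith
  · simp only
    push_cast
    have e : (a : ℝ) * p1 + b * p2 - (a * (α + B) + (m - a ^ 2 * t) * n) =
        a * (((p1 : ℝ) - b * T0) - (α + B + (μ - t) * (p2 + a * T0))) +
          (a * (μ - t) + b) * p2 + (m - a ^ 2 * t) * (T0 - n) := by rw [hm]; ring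
    have r1 : 0 ≤ (a * (μ - t) + b) * (p2 : ℝ) := mul_nonneg haμt hp2
    have r2 : 0 ≤ (m - a ^ 2 * t) * ((T0 : ℝ) - n) := mul_nonneg (by linarith) (by linarith)
    linarith
  · simp only
    push_cast
    have e : a * (m * β - (m - a ^ 2 * s) * α) -
        (a ^ 2 * s * ((a : ℝ) * p1 + b * p2) + m * (m - a ^ 2 * s) * n) =
        m * a * (β - (s - μ) * p2 - p1) +
        (m - a ^ 2 * s) * (a * (((p1 : ℝ) - b * T0) - (α + μ * (p2 + a * T0)))) +
          m * (m - a ^ 2 * s) * (T0 - n) := by rw [hm]; ring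
    have r1 : 0 ≤ m * a * (β - (s - μ) * (p2 : ℝ) - p1) :=
      mul_nonneg (mul_nonneg hm0.le ha0.le) (by linarith)
    have r2 : 0 ≤ (m - a ^ 2 * s) * (a * (((p1 : ℝ) - b * T0) - (α + μ * (p2 + a * T0)))) :=
      mul_nonneg (by linarith) u1
    have r3 : 0 ≤ m * (m - a ^ 2 * s) * ((T0 : ℝ) - n) :=
      mul_nonneg (mul_nonneg hm0.le (by linarith)) (by linarith)
    linarith

/-- three flattenings, for lists of weights -/
theorem Tr.bilinear {s μ c t c' T κ m : ℝ} {L L' : List ℝ} (hs : 0 < s) (ht : 0 ≤ t)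
    (hc0 : 0 < c') (a b p x v : ℤ) (ha : 1 ≤ a) (hab : IsCoprime a b) (hp : 1 ≤ p)
    (hxp : IsCoprime x p) (hm : m = a * (a * μ + b)) (hm1 : p * m = a * t * κ + x)
    (hm2 : m * (T - a * p) = a * p * v) (h1 : (a : ℝ) ^ 2 * s ≤ m) (h2 : (a : ℝ) ^ 2 * t ≤ m)
    (h3 : p * m ≤ a * s * T) (hκ : 0 ≤ κ) (hκ' : κ ≤ a * p) (h' : Tr t μ L' c')
    (h : Tr (s * T ^ 2 - t * κ ^ 2) (t * κ * (a * p - κ)) L c) :
    Tr s μ (L'.map (fun x => c * κ / c' * x) ++ L) (c * T) := by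
  intro α β w hw
  rw [app_sum] at hw
  refine app_emp (h'.absorb hc0 _ (by linarith) ?_)
  obtain ⟨B, hB⟩ : ∃ B : ℝ, B =
    (∑ i, L'.get i * (w (mE (c * κ / c') L' L (Sum.inl i)) : ℝ)) / c' := ⟨_, rfl⟩
  rw [← hB]
  have hB' : c * κ / c' * ∑ i, L'.get i * (w (mE (c * κ / c') L' L (Sum.inl i)) : ℝ) =
      c * κ * B := by
    rw [hB]; ring
  rw [hB'] at hw
  refine Emp_bilinear a b p x v ha hab hp hxp hs ht hm hm1 hm2 h1 h2 h3 hκ hκ' ?_
  have e : s * T ^ 2 - t * κ * (a * p) =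
      s * T ^ 2 - t * κ ^ 2 - t * κ * (a * p - κ) := by ring
  rw [e]
  apply h
  linarith

end Pool.Agent.N168.BR
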